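import Mathlib
import Pool.Agent.QSX.StmtsG

set_option autoImplicit false

namespace Pool.Agent.QSX.H95

open Pool.Agent.QSX Matrix Finset Polynomial

section abs

variable {A : Type} [Ring A] [Algebra ℝ A]

/-- `ad z` as a linear map -/
noncomputable def ad1 (z : A) : A →ₗ[ℝ] A := LinearMap.mulLeft ℝ z - LinearMap.mulRight ℝ z

theorem ad1_apply (z w : A) : ad1 z w = z * w - w * z := rfl

theorem iter_ad (z w : A) (k : ℕ) :
    (fun w => z * w - w * z)^[k] w = ((ad1 z) ^ k) w := by
  rw [Module.End.pow_apply]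
  rfl

theorem ad1_nil {z : A} (hz : IsNilpotent z) : IsNilpotent (ad1 z) := by
  have hl : IsNilpotent (LinearMap.mulLeft ℝ z) := by rwa [LinearMap.isNilpotent_mulLeft_iff]
  have hr : IsNilpotent (LinearMap.mulRight ℝ z) := by rwa [LinearMap.isNilpotent_mulRight_iff]
  exact (LinearMap.commute_mulLeft_right z z).isNilpotent_sub hl hr

/-- downward induction -/
theorem down (n : Submodule ℝ A) (x : A) (hx : ∀ w ∈ n, ad1 x w ∈ n) (hnil : IsNilpotent (ad1 x))
    (K : ℕ) (hK : 0 < K) (c : ℕ → ℝ) (hc : c 0 = 1) (u : A)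
    (hu : ∑ k ∈ range K, c k • ((ad1 x) ^ k) u ∈ n) : u ∈ n := by
  obtain ⟨N, hN⟩ := hnil
  have hpow : ∀ i, ∀ w ∈ n, ((ad1 x) ^ i) w ∈ n := by
    intro i
    induction i with
    | zero => intro w hw; simpa using hw
    | succ i ih =>
      intro w hw
      rw [pow_succ', Module.End.mul_apply]
      exact hx _ (ih w hw)
  have key : ∀ d i, N ≤ i + d → ((ad1 x) ^ i) u ∈ n := by
    intro d
    induction d with
    | zero =>
      intro i hi
      have : (ad1 x) ^ i = 0 := by
        rw [show i = (i - N) + N from by omega, pow_add, hN, mul_zero]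
      rw [this, LinearMap.zero_apply]
      exact n.zero_mem
    | succ d ih =>
      intro i hi
      have h1 := hpow i _ hu
      rw [map_sum] at h1
      obtain ⟨K', rfl⟩ : ∃ K', K = K' + 1 := ⟨K - 1, by omega⟩
      rw [Finset.sum_range_succ'] at h1
      have h2 : ∑ k ∈ range K', ((ad1 x) ^ i) (c (k + 1) • ((ad1 x) ^ (k + 1)) u) ∈ n := by
        refine n.sum_mem fun k _ => ?_
        rw [map_smul, ← Module.End.mul_apply, ← pow_add]
        exact n.smul_mem _ (ih _ (by omega))
      have h3 := n.sub_mem h1 h2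
      rw [add_sub_cancel_left, hc, one_smul, pow_zero, Module.End.one_apply] at h3
      exact h3
  have := key N 0 (by omega)
  rwa [pow_zero, Module.End.one_apply] at this

theorem comm_coeff (z w : A[X]) (i : ℕ) :
    (ad1 z w).coeff i = ∑ p ∈ antidiagonal i,
      (z.coeff p.1 * w.coeff p.2 - w.coeff p.2 * z.coeff p.1) := by
  rw [ad1_apply, coeff_sub, coeff_mul, coeff_mul, Finset.sum_sub_distrib]
  congr 1
  rw [← Finset.Nat.sum_antidiagonal_swap]
  rfl

theorem deriv_coeff_mem (n : Submodule ℝ A) (z : A[X]) (i : ℕ) (h : z.coeff (i + 1) ∈ n) :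
    (derivative z).coeff i ∈ n := by
  rw [coeff_derivative, ← Nat.cast_succ, ← nsmul_eq_mul']
  exact nsmul_mem h _

theorem coeff_mem_of_deriv (n : Submodule ℝ A) (z : A[X]) (i : ℕ)
    (h : (derivative z).coeff i ∈ n) : z.coeff (i + 1) ∈ n := by
  rw [coeff_derivative, ← Nat.cast_succ, ← nsmul_eq_mul'] at h
  have h2 : ((i + 1 : ℕ) • z.coeff (i + 1)) = ((i + 1 : ℕ) : ℝ) • z.coeff (i + 1) :=
    (Nat.cast_smul_eq_nsmul ℝ _ _).symm
  rw [Nat.succ_eq_add_one, h2] at h
  have h3 := n.smul_mem (((i + 1 : ℕ) : ℝ)⁻¹) h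
  rwa [smul_smul, inv_mul_cancel₀ (by positivity), one_smul] at h3

/-- all coefficients are in `n` -/
theorem coeff_mem (n : Submodule ℝ A) (hlie : ∀ x ∈ n, ∀ y ∈ n, x * y - y * x ∈ n)
    (z : A[X]) (hz0 : z.coeff 0 ∈ n) (hnil : IsNilpotent (z.coeff 0)) (K : ℕ) (hK : 0 < K)
    (c : ℕ → ℝ) (hc : c 0 = 1) (y : A) (hy : y ∈ n)
    (hW : ∑ k ∈ range K, c k • ((ad1 z) ^ k) (derivative z) = C y) : ∀ j, z.coeff j ∈ n := by
  intro j
  induction j using Nat.strong_induction_on with
  | _ j ih =>
    cases j with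
    | zero => exact hz0
    | succ j =>
      have key : ∀ k, (∀ i < j, (((ad1 z) ^ k) (derivative z)).coeff i ∈ n) ∧
          (((ad1 z) ^ k) (derivative z)).coeff j
            - ((ad1 (z.coeff 0)) ^ k) ((derivative z).coeff j) ∈ n := by
        intro k
        induction k with
        | zero =>
          refine ⟨fun i hi => ?_, ?_⟩
          · rw [pow_zero, Module.End.one_apply]
            exact deriv_coeff_mem n z i (ih _ (by omega))
          · rw [pow_zero, pow_zero, Module.End.one_apply, Module.End.one_apply, sub_self]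
            exact n.zero_mem
        | succ k ihk =>
          obtain ⟨h1, h2⟩ := ihk
          rw [pow_succ', pow_succ', Module.End.mul_apply, Module.End.mul_apply]
          set w := ((ad1 z) ^ k) (derivative z) with hw
          set u := ((ad1 (z.coeff 0)) ^ k) ((derivative z).coeff j) with hu
          refine ⟨fun i hi => ?_, ?_⟩
          · rw [comm_coeff]
            refine n.sum_mem fun p hp => ?_
            rw [Finset.HasAntidiagonal.mem_antidiagonal] at hp
            exact hlie _ (ih _ (by omega)) _ (h1 _ (by omega))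
          · rw [comm_coeff, ← Finset.add_sum_erase (antidiagonal j) _
              (show ((0 : ℕ), j) ∈ antidiagonal j by rw [Finset.HasAntidiagonal.mem_antidiagonal]; omega)]
            have h3 : ∑ p ∈ (antidiagonal j).erase (0, j),
                (z.coeff p.1 * w.coeff p.2 - w.coeff p.2 * z.coeff p.1) ∈ n := by
              refine n.sum_mem fun p hp => ?_
              rw [Finset.mem_erase, Finset.HasAntidiagonal.mem_antidiagonal] at hp
              have hp2 : p.2 < j := by
                rcases Nat.lt_or_ge p.2 j with h | h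
                · exact h
                · exfalso
                  apply hp.1
                  have h4 : p.1 = 0 := by omega
                  have h5 : p.2 = j := by omega
                  rw [← h4, ← h5]
              exact hlie _ (ih _ (by omega)) _ (h1 _ hp2)
            have h4 := hlie _ hz0 _ h2
            have h5 := n.add_mem h4 h3
            have h6 : z.coeff 0 * w.coeff j - w.coeff j * z.coeff 0 +
                ∑ p ∈ (antidiagonal j).erase (0, j),
                  (z.coeff p.1 * w.coeff p.2 - w.coeff p.2 * z.coeff p.1)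
                - ad1 (z.coeff 0) u =
                z.coeff 0 * (w.coeff j - u) - (w.coeff j - u) * z.coeff 0 +
                ∑ p ∈ (antidiagonal j).erase (0, j),
                  (z.coeff p.1 * w.coeff p.2 - w.coeff p.2 * z.coeff p.1) := by
              rw [ad1_apply, mul_sub, sub_mul]
              abel
            rw [h6]
            exact h5
      apply coeff_mem_of_deriv
      apply down n (z.coeff 0) (fun w hw => hlie _ hz0 _ hw) (ad1_nil hnil) K hK c hc
      have h1 : (∑ k ∈ range K, c k • ((ad1 z) ^ k) (derivative z)).coeff j ∈ n := by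
        rw [hW, coeff_C]
        split_ifs
        · exact hy
        · exact n.zero_mem
      rw [finsetSum_coeff] at h1
      have h2 : ∑ k ∈ range K, c k • ((((ad1 z) ^ k) (derivative z)).coeff j
            - ((ad1 (z.coeff 0)) ^ k) ((derivative z).coeff j)) ∈ n :=
        n.sum_mem fun k _ => n.smul_mem _ (key k).2
      have h3 := n.sub_mem h1 h2
      rw [← Finset.sum_sub_distrib] at h3
      have h4 : ∀ k, (c k • ((ad1 z) ^ k) (derivative z)).coeff j
          - c k • ((((ad1 z) ^ k) (derivative z)).coeff j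
            - ((ad1 (z.coeff 0)) ^ k) ((derivative z).coeff j))
          = c k • ((ad1 (z.coeff 0)) ^ k) ((derivative z).coeff j) := by
        intro k
        rw [coeff_smul, smul_sub, sub_sub_cancel]
      rw [Finset.sum_congr rfl fun k _ => h4 k] at h3
      exact h3

end abs

section main

variable {R : Type} [CommRing R] [Algebra ℝ R] {m : ℕ}

theorem map_mexp {R' : Type} [CommRing R'] [Algebra ℝ R'] (f : R →ₐ[ℝ] R')
    (x : Matrix (Fin m) (Fin m) R) : f.mapMatrix (mexp x) = mexp (f.mapMatrix x) := by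
  unfold mexp
  rw [map_sum]
  refine Finset.sum_congr rfl fun k _ => ?_
  rw [map_smul, map_pow]

omit [Algebra ℝ R] in
theorem UU.mul {g h : Matrix (Fin m) (Fin m) R} (hg : UU g) (hh : UU h) : UU (g * h) := by
  have : g * h - 1 = (g - 1) * (h - 1) + (g - 1) + (h - 1) := by noncomm_ring
  unfold UU at *
  rw [this]
  exact ((SU.mul hg hh).add hg).add hh

/-- the derivative as a real linear map -/
noncomputable def der (A : Type) [Ring A] [Algebra ℝ A] : A[X] →ₗ[ℝ] A[X] where
  toFun := derivative
  map_add' _ _ := derivative_add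
  map_smul' c p := derivative_smul c p

theorem der_mul {A : Type} [Ring A] [Algebra ℝ A] (p q : A[X]) :
    der A (p * q) = p * der A q + der A p * q := by
  change derivative (p * q) = p * derivative q + derivative p * q
  rw [derivative_mul, add_comm]

/-- `matPolyEquiv` over the reals -/
noncomputable def mp : Matrix (Fin m) (Fin m) R[X] →ₐ[ℝ] (Matrix (Fin m) (Fin m) R)[X] :=
  (matPolyEquiv.restrictScalars ℝ).toAlgHom

theorem mp_apply (M : Matrix (Fin m) (Fin m) R[X]) : mp M = matPolyEquiv M := rfl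

theorem mp_mexp (M : Matrix (Fin m) (Fin m) R[X]) :
    mp (mexp M) = ∑ k ∈ range (m + 1), ((k.factorial : ℝ)⁻¹) • (mp M) ^ k := by
  unfold mexp
  rw [map_sum]
  refine Finset.sum_congr rfl fun k _ => ?_
  rw [map_smul, map_pow]

theorem bch (hL : LgmStmt) (hD : DexStmt) : BchStmt := by
  intro R _ _ m n hn hlie x hx y hy
  have hSx := hn x hx
  have hSy := hn y hy
  set cc : R →ₐ[ℝ] R[X] := CAlgHom with hcc
  set X1 : Matrix (Fin m) (Fin m) R[X] := cc.mapMatrix x with hX1
  set Y1 : Matrix (Fin m) (Fin m) R[X] := (X : R[X]) • cc.mapMatrix y with hY1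
  have hSX1 : SU X1 := by
    intro i j h
    change cc (x i j) = 0
    rw [hSx i j h, map_zero]
  have hSY1 : SU Y1 := by
    intro i j h
    change (X : R[X]) • cc (y i j) = 0
    rw [hSy i j h, map_zero, smul_zero]
  obtain ⟨hL1, hL2⟩ := hL R[X] m
  have hUG : UU (mexp X1 * mexp Y1) := UU.mul (hL1 X1 hSX1).1 (hL1 Y1 hSY1).1
  set Z : Matrix (Fin m) (Fin m) R[X] := mlog (mexp X1 * mexp Y1) with hZ
  obtain ⟨hSZ, hEZ⟩ := hL2 _ hUG
  rw [← hZ] at hSZ hEZ
  -- the elements of the polynomial ring over matrices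
  set z : (Matrix (Fin m) (Fin m) R)[X] := mp Z with hz
  have hmX1 : mp X1 = C x := by
    rw [mp_apply]
    exact matPolyEquiv_map_C x
  have hmY1 : mp Y1 = X * C y := by
    rw [mp_apply, hY1, matPolyEquiv_map_smul]
    congr 1
    · simp
    · exact matPolyEquiv_map_C y
  have hpow : ∀ M : Matrix (Fin m) (Fin m) R[X], SU M → (mp M) ^ (m + 1) = 0 := by
    intro M hM
    rw [← map_pow, hM.pow_eq_zero (Nat.le_succ m), map_zero]
  have hdexp : ∀ M : Matrix (Fin m) (Fin m) R[X], SU M →
      der _ (mp (mexp M)) = mp (mexp M) * ∑ k ∈ range (2 * (m + 1) + 1),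
        ((-1 : ℝ) ^ k * ((k + 1).factorial : ℝ)⁻¹) • ((ad1 (mp M)) ^ k) (der _ (mp M)) := by
    intro M hM
    have h1 := hD _ (der (Matrix (Fin m) (Fin m) R)) der_mul (mp M) (m + 1) (hpow M hM)
    rw [← mp_mexp] at h1
    rw [h1]
    congr 1
    refine Finset.sum_congr rfl fun k _ => ?_
    rw [iter_ad]
  -- derivative of exp X1
  have hdX : der _ (mp (mexp X1)) = 0 := by
    rw [hX1, ← map_mexp]
    have : mp (cc.mapMatrix (mexp x)) = C (mexp x) := by
      rw [mp_apply]
      exact matPolyEquiv_map_C _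
    rw [this]
    exact derivative_C
  have hdY : der _ (mp (mexp Y1)) = mp (mexp Y1) * C y := by
    rw [hdexp Y1 hSY1]
    congr 1
    have h1 : der _ (mp Y1) = C y := by
      rw [hmY1]
      change derivative (X * C y) = C y
      rw [derivative_mul, derivative_X, derivative_C, mul_zero, add_zero, one_mul]
    have h2 : ad1 (mp Y1) (C y) = 0 := by
      rw [ad1_apply, hmY1, mul_assoc, ← C_mul, ← mul_assoc, ← X_mul, mul_assoc, ← C_mul, sub_self]
    rw [h1, Finset.sum_range_succ', Finset.sum_eq_zero, zero_add]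
    · norm_num
    · intro k _
      have h3 : ((ad1 (mp Y1)) ^ (k + 1)) (C y) = 0 := by
        rw [pow_succ, Module.End.mul_apply, h2, map_zero]
      rw [h3, smul_zero]
  have hG : der _ (mp (mexp Z)) = mp (mexp Z) * C y := by
    rw [hEZ, map_mul, der_mul, hdX, hdY, zero_mul, add_zero, mul_assoc]
  have hinv : mp (mexp (-Z)) * mp (mexp Z) = 1 := by
    rw [← map_mul, mexp_neg_mul hSZ, map_one]
  have hW : ∑ k ∈ range (2 * (m + 1) + 1),
        ((-1 : ℝ) ^ k * ((k + 1).factorial : ℝ)⁻¹) • ((ad1 z) ^ k) (derivative z) = C y := by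
    have h1 := hdexp Z hSZ
    rw [hG] at h1
    have h2 := congrArg (fun t => mp (mexp (-Z)) * t) h1
    simp only [← mul_assoc, hinv, one_mul] at h2
    exact h2.symm
  -- coefficient 0
  have hcoef : ∀ (M : Matrix (Fin m) (Fin m) R[X]) k i j, (mp M).coeff k i j = (M i j).coeff k :=
    fun M k i j => matPolyEquiv_coeff_apply M k i j
  set e0 : R[X] →ₐ[ℝ] R := (aeval (0 : R)).restrictScalars ℝ with he0
  set e1 : R[X] →ₐ[ℝ] R := (aeval (1 : R)).restrictScalars ℝ with he1
  have he0C : ∀ a, e0 (cc a) = a := by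
    intro a
    change aeval (0 : R) (C a) = a
    rw [aeval_C]
    rfl
  have he1C : ∀ a, e1 (cc a) = a := by
    intro a
    change aeval (1 : R) (C a) = a
    rw [aeval_C]
    rfl
  have hmapSU : ∀ (e : R[X] →ₐ[ℝ] R) (M : Matrix (Fin m) (Fin m) R[X]), SU M →
      SU (e.mapMatrix M) := by
    intro e M hM i j h
    change e (M i j) = 0
    rw [hM i j h, map_zero]
  have h0X : e0.mapMatrix X1 = x := by
    ext i j
    exact he0C _
  have h0Y : e0.mapMatrix Y1 = 0 := by
    ext i j
    change aeval (0 : R) (X * (cc (y i j))) = 0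
    rw [map_mul, aeval_X, zero_mul]
  have h1X : e1.mapMatrix X1 = x := by
    ext i j
    exact he1C _
  have h1Y : e1.mapMatrix Y1 = y := by
    ext i j
    change aeval (1 : R) (X * (cc (y i j))) = y i j
    rw [map_mul, aeval_X, one_mul]
    exact he1C _
  have hz0 : z.coeff 0 = x := by
    have h1 : e0.mapMatrix Z = z.coeff 0 := by
      ext i j
      rw [hz, hcoef]
      change aeval (0 : R) (Z i j) = _
      rw [coe_aeval_eq_eval, coeff_zero_eq_eval_zero]
    have h2 : mexp (e0.mapMatrix Z) = mexp x := by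
      rw [← map_mexp, hEZ, map_mul, map_mexp, map_mexp, h0X, h0Y, mexp_zero, mul_one]
    obtain ⟨hl1, _⟩ := hL R m
    rw [← h1, ← (hl1 _ (hmapSU e0 Z hSZ)).2, h2, (hl1 x hSx).2]
  have hall : ∀ j, z.coeff j ∈ n := by
    apply coeff_mem n hlie z (by rw [hz0]; exact hx)
      (by rw [hz0]; exact ⟨m, hSx.pow_eq_zero le_rfl⟩) (2 * (m + 1) + 1) (by omega)
      (fun k => (-1 : ℝ) ^ k * ((k + 1).factorial : ℝ)⁻¹) (by norm_num) y hy hW
  -- evaluation at 1
  refine ⟨e1.mapMatrix Z, ?_, ?_⟩
  · have h1 : e1.mapMatrix Z = ∑ k ∈ range (z.natDegree + 1), z.coeff k := by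
      ext i j
      change aeval (1 : R) (Z i j) = _
      have h2 : (Z i j).natDegree < z.natDegree + 1 := by
        rw [Nat.lt_succ_iff, natDegree_le_iff_coeff_eq_zero]
        intro N hN
        rw [← hcoef, ← hz, coeff_eq_zero_of_natDegree_lt hN, Matrix.zero_apply]
      rw [coe_aeval_eq_eval, eval_eq_sum_range' h2, Matrix.sum_apply]
      refine Finset.sum_congr rfl fun k _ => ?_
      rw [one_pow, mul_one, hz, hcoef]
    rw [h1]
    exact n.sum_mem fun k _ => hall k
  · have hS1 := hmapSU e1 Z hSZ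
    apply Units.ext
    rw [Units.val_mul, ue_val hSx, ue_val hSy, ue_val hS1, ← map_mexp, hEZ, map_mul, map_mexp,
      map_mexp, h1X, h1Y]

end main

end Pool.Agent.QSX.H95
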